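import Mathlib
import Pool.Agent.Helper49.RC.St

open MeasureTheory Set Filter Metric

namespace Pool.Agent.Helper25.RC

open Helper97.CB Helper49.LT Helper49.RC

theorem cr_umul (u z w : ℂ) (hu : ‖u‖ = 1) : cr (u * z) (u * w) = cr z w := by
  rw [cr_mul, hu]; ring

theorem ar6_umul (u : ℂ) (x : Fin 6 → ℂ) (hu : ‖u‖ = 1) :
    ar6 (fun k => u * x k) = ar6 x := by
  simp only [ar6, cr_umul _ _ _ hu]

/-- the bound for the chord length `s` -/
theorem bound (h₁ : StWid) (h₂ : StHexA) (K : Set ℂ) (B : ℝ) (hK : IsBody K) (hS : Small K B) :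
    0 < B ∧ ∀ s, 0 < s → s ≤ cmax K → s * (wid K 0 + wid K s) ≤ B := by
  obtain ⟨hc, hw0, -, hcont, hnn, -, -⟩ := h₁ K hK
  have hopen : ∀ s ∈ Ioo 0 (cmax K), s * (wid K 0 + wid K s) ≤ B := by
    intro s hs
    obtain ⟨P, a, b, γ, φ, c, f, hx, he⟩ := h₂ K hK s hs
    have := hS P a b γ φ c f hx
    linarith
  have hB : 0 < B := by
    have hm : cmax K / 2 ∈ Ioo 0 (cmax K) := ⟨by linarith, by linarith⟩
    have h := hopen _ hm
    have h2 := (hnn (cmax K / 2) ⟨hm.1.le, hm.2.le⟩).2.1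
    have h3 : 0 < cmax K / 2 * (wid K 0 + wid K (cmax K / 2)) := by
      apply mul_pos hm.1
      linarith
    linarith
  refine ⟨hB, ?_⟩
  intro s hs hsc
  rcases lt_or_eq_of_le hsc with hlt | heq
  · exact hopen s ⟨hs, hlt⟩
  · have hcl : s ∈ closure (Ioo 0 (cmax K)) := by
      rw [closure_Ioo hc.ne]
      exact ⟨hs.le, hsc⟩
    have hcw : ContinuousWithinAt (fun s => s * (wid K 0 + wid K s)) (Ioo 0 (cmax K)) s := by
      have h1 : ContinuousWithinAt (wid K) (Ioo 0 (cmax K)) s :=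
        (hcont s ⟨hs.le, hsc⟩).mono Ioo_subset_Icc_self
      exact continuousWithinAt_id.mul (continuousWithinAt_const.add h1)
    exact ContinuousWithinAt.closure_le hcl hcw continuousWithinAt_const hopen

theorem im_bdd (K : Set ℂ) (s : ℝ) (hK : IsBody K) :
    BddAbove (Complex.im '' Sh K s) ∧ BddBelow (Complex.im '' Sh K s) := by
  have hc : IsCompact (Complex.im '' K) := hK.2.1.image Complex.continuous_im
  have hsub : Complex.im '' Sh K s ⊆ Complex.im '' K := image_mono (fun z hz => hz.1)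
  exact ⟨hc.bddAbove.mono hsub, hc.bddBelow.mono hsub⟩

/-- the case of horizontal sides -/
theorem horiz (h₁ : StWid) (h₂ : StHexA) (K : Set ℂ) (B : ℝ) (hK : IsBody K) (hS : Small K B)
    (y : Fin 6 → ℂ) (hy : ∀ k, y k ∈ K) (s : ℝ) (hs : 0 < s) (h15 : y 1 = y 5 + (s : ℂ))
    (h24 : y 2 = y 4 + (s : ℂ)) : ar6 y ≤ B := by
  obtain ⟨-, hb⟩ := bound h₁ h₂ K B hK hS
  obtain ⟨hc, hw0, -, hcont, hnn, hemp, him⟩ := h₁ K hK
  have h5 : y 5 ∈ Sh K s := ⟨hy 5, by rw [← h15]; exact hy 1⟩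
  have h4 : y 4 ∈ Sh K s := ⟨hy 4, by rw [← h24]; exact hy 2⟩
  have hsc : s ≤ cmax K := by
    by_contra hcon
    push Not at hcon
    have := hemp s hcon
    rw [this] at h5
    exact h5
  have e : ar6 y = s * (((y 3).im - (y 0).im) + ((y 4).im - (y 5).im)) := by
    simp only [ar6, h15, h24, cr, Complex.add_re, Complex.add_im, Complex.ofReal_re,
      Complex.ofReal_im]
    ring
  have e1 : (y 3).im - (y 0).im ≤ wid K 0 := him _ (hy 3) _ (hy 0)
  have e2 : (y 4).im - (y 5).im ≤ wid K s := by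
    obtain ⟨ba, bb⟩ := im_bdd K s hK
    have q1 : (y 4).im ≤ sSup (Complex.im '' Sh K s) := le_csSup ba ⟨y 4, h4, rfl⟩
    have q2 : sInf (Complex.im '' Sh K s) ≤ (y 5).im := csInf_le bb ⟨y 5, h5, rfl⟩
    unfold wid
    linarith
  rw [e]
  calc s * (((y 3).im - (y 0).im) + ((y 4).im - (y 5).im)) ≤ s * (wid K 0 + wid K s) := by
        apply mul_le_mul_of_nonneg_left _ hs.le
        linarith
    _ ≤ B := hb s hs hsc

/-- SIX -/
theorem hSIX (h₁ : StWid) (h₂ : StHexA) (h₃ : StRot) : StSix := by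
  intro K B hK hS x hx hrel
  have hB : 0 < B := (bound h₁ h₂ K B hK hS).1
  by_cases hd : x 1 - x 5 = 0
  · have e1 : x 1 = x 5 := sub_eq_zero.mp hd
    have e2 : x 2 = x 4 := by
      have : x 2 = x 4 + (x 1 - x 5) := by linear_combination -hrel
      rw [this, hd, add_zero]
    have e : ar6 x = 0 := by
      simp only [ar6, e1, e2, cr]
      ring
    rw [e]
    exact hB.le
  · have hn : 0 < ‖x 1 - x 5‖ := norm_pos_iff.mpr hd
    have hnC : ((‖x 1 - x 5‖ : ℝ) : ℂ) ≠ 0 := by exact_mod_cast hn.ne'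
    obtain ⟨u, hu, hud⟩ : ∃ u : ℂ, ‖u‖ = 1 ∧ u * (x 1 - x 5) = ((‖x 1 - x 5‖ : ℝ) : ℂ) := by
      refine ⟨(starRingEnd ℂ) (x 1 - x 5) / ((‖x 1 - x 5‖ : ℝ) : ℂ), ?_, ?_⟩
      · rw [norm_div, RCLike.norm_conj, Complex.norm_real, norm_norm, div_self hn.ne']
      · rw [div_mul_eq_mul_div, div_eq_iff hnC, mul_comm, Complex.mul_conj,
          Complex.normSq_eq_norm_sq]
        push_cast
        ring
    obtain ⟨hK', -, hS'⟩ := h₃ K u hu hK
    have hy : ∀ k, (fun k => u * x k) k ∈ (fun z => u * z) '' K := fun k => ⟨x k, hx k, rfl⟩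
    have := horiz h₁ h₂ _ B hK' (hS' B hS) (fun k => u * x k) hy ‖x 1 - x 5‖ hn
      (by
        show u * x 1 = u * x 5 + _
        rw [← hud]; ring)
      (by
        show u * x 2 = u * x 4 + _
        rw [← hud]
        linear_combination -u * hrel)
    rw [ar6_umul u x hu] at this
    exact this

end Pool.Agent.Helper25.RC
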