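import Mathlib

/-!
# Project RC (MP_b21509_co): the pointwise inequality PT, engine

Coordinates: `x`, `y' = y/√3`, `bx`, `by' = by/√3`; the norm is `√(X² + 3 Y²)`.  A table (bisection tree) of integers
is checked by `chk`; `chk_sound` gives the inequality on a box.
-/

set_option autoImplicit false

namespace Pool.Agent.Helper25.RC.PT

/-- the norm in the rational coordinates -/
noncomputable def nr (X Y : ℝ) : ℝ := Real.sqrt (X ^ 2 + 3 * Y ^ 2)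

/-- the sum of the four lengths -/
noncomputable def Sr (bx b y x : ℝ) : ℝ :=
  nr (1 / 2 + bx / 2 + 3 / 2 * b + x) ((1 + b - bx) / 2 + y) +
  nr (1 / 2 + bx / 2 + 3 / 2 * b - x) ((1 + b - bx) / 2 - y) +
  nr (1 / 2 + bx / 2 - 3 / 2 * b + x) ((-1 + b + bx) / 2 + y) +
  nr (1 / 2 + bx / 2 - 3 / 2 * b - x) ((-1 + b + bx) / 2 - y)

theorem nr_ge (X Y u v : ℝ) (h : 3 * u ^ 2 + v ^ 2 ≤ 3) : u * X + v * Y ≤ nr X Y := by
  unfold nr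
  by_cases h0 : u * X + v * Y ≤ 0
  · exact h0.trans (Real.sqrt_nonneg _)
  · push Not at h0
    apply Real.le_sqrt_of_sq_le
    have h1 : (u * X + v * Y) ^ 2 ≤ (u ^ 2 + v ^ 2 / 3) * (X ^ 2 + 3 * Y ^ 2) := by
      nlinarith [sq_nonneg (3 * u * Y - v * X)]
    have h2 : (u ^ 2 + v ^ 2 / 3) * (X ^ 2 + 3 * Y ^ 2) ≤ 1 * (X ^ 2 + 3 * Y ^ 2) := by
      apply mul_le_mul_of_nonneg_right _ (by positivity)
      linarith
    linarith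

/-- a function of `(x, y)` which is affine minus `k (x² + y²)`, nonnegative at the vertices of a box, is nonnegative in the box -/
theorem box (a b c k x0 x1 y0 y1 x y : ℝ) (hk : 0 ≤ k) (hx0 : x0 ≤ x) (hx1 : x ≤ x1) (hy0 : y0 ≤ y)
    (hy1 : y ≤ y1) (h00 : 0 ≤ a + b * x0 + c * y0 - k * (x0 ^ 2 + y0 ^ 2))
    (h01 : 0 ≤ a + b * x0 + c * y1 - k * (x0 ^ 2 + y1 ^ 2))
    (h10 : 0 ≤ a + b * x1 + c * y0 - k * (x1 ^ 2 + y0 ^ 2))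
    (h11 : 0 ≤ a + b * x1 + c * y1 - k * (x1 ^ 2 + y1 ^ 2)) :
    0 ≤ a + b * x + c * y - k * (x ^ 2 + y ^ 2) := by
  have e1 : 0 ≤ k * ((x - x0) * (x1 - x)) :=
    mul_nonneg hk (mul_nonneg (by linarith) (by linarith))
  have e2 : 0 ≤ k * ((y - y0) * (y1 - y)) :=
    mul_nonneg hk (mul_nonneg (by linarith) (by linarith))
  rcases le_total 0 (b - k * (x0 + x1)) with hb | hb <;>
  rcases le_total 0 (c - k * (y0 + y1)) with hc | hc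
  · have f1 := mul_nonneg hb (sub_nonneg.2 hx0)
    have f2 := mul_nonneg hc (sub_nonneg.2 hy0)
    nlinarith
  · have f1 := mul_nonneg hb (sub_nonneg.2 hx0)
    have f2 := mul_nonneg (neg_nonneg.2 hc) (sub_nonneg.2 hy1)
    nlinarith
  · have f1 := mul_nonneg (neg_nonneg.2 hb) (sub_nonneg.2 hx1)
    have f2 := mul_nonneg hc (sub_nonneg.2 hy0)
    nlinarith
  · have f1 := mul_nonneg (neg_nonneg.2 hb) (sub_nonneg.2 hx1)
    have f2 := mul_nonneg (neg_nonneg.2 hc) (sub_nonneg.2 hy1)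
    nlinarith

/-- a quadratic in `(bx, b)` -/
theorem quad (A B C G H bx b : ℝ) (hA : 0 < A) (hB : 0 < B)
    (h : 3 * B * G ^ 2 + A * H ^ 2 ≤ 12 * A * B * C) :
    0 ≤ C + G * bx + H * b + A * bx ^ 2 + 3 * B * b ^ 2 := by
  have h1 : 0 ≤ 12 * (A * B) * (C + G * bx + H * b + A * bx ^ 2 + 3 * B * b ^ 2) := by
    have e1 : 0 ≤ 3 * B * (G + 2 * A * bx) ^ 2 := by positivity
    have e2 : 0 ≤ A * (H + 6 * B * b) ^ 2 := by positivity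
    nlinarith
  have h2 : 0 < 12 * (A * B) := by positivity
  exact nonneg_of_mul_nonneg_right h1 h2

/-- a quadratic in `bx` -/
theorem quad0 (A C G bx : ℝ) (hA : 0 < A) (h : G ^ 2 ≤ 4 * A * C) :
    0 ≤ C + G * bx + A * bx ^ 2 := by
  have h1 : 0 ≤ 4 * A * (C + G * bx + A * bx ^ 2) := by
    have e1 : 0 ≤ (G + 2 * A * bx) ^ 2 := by positivity
    nlinarith
  have h2 : 0 < 4 * A := by positivity
  exact nonneg_of_mul_nonneg_right h1 h2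

/-- the data of a cell: four vectors, two multipliers -/
structure D where
  u1 : ℤ
  v1 : ℤ
  u2 : ℤ
  v2 : ℤ
  u3 : ℤ
  v3 : ℤ
  u4 : ℤ
  v4 : ℤ
  m1 : ℤ
  m2 : ℤ

/-- the parameters: scale `N`, `f = F/N`, `l1 = P1/N`, `l2 = P2/N`, near region `x² + y² ≤ R/N²` -/
structure Par where
  N : ℤ
  F : ℤ
  P1 : ℤ
  P2 : ℤ
  R : ℤ

def vtx (P : Par) (d : D) (X Y : ℤ) : Bool :=
  let su := d.u1 + d.u2 + d.u3 + d.u4
  let sv := d.v1 + d.v2 - d.v3 - d.v4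
  let A := 2 * P.P1 + d.m1 + d.m2
  let B := 2 * P.P2 + d.m1 + d.m2
  let C := P.N * P.N * (su + sv) - 8 * P.N * P.N * P.N +
    2 * P.N * ((d.u1 - d.u2 + d.u3 - d.u4) * X + (d.v1 - d.v2 + d.v3 - d.v4) * Y) -
    3 * P.F * (X * X + Y * Y) + P.N * (d.m1 * (2 * X - P.N)) + P.N * (d.m2 * (2 * Y - P.N))
  let G := P.N * (su - sv) + 4 * P.N * P.N - 2 * d.m1 * X + 2 * d.m2 * Y
  let H := P.N * (3 * (d.u1 + d.u2 - d.u3 - d.u4) + (d.v1 + d.v2 + d.v3 + d.v4)) -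
    6 * d.m1 * Y - 2 * d.m2 * X
  (decide (0 < B) && decide (3 * B * (G * G) + A * (H * H) ≤ 12 * A * B * C)) ||
    (decide (B = 0) && (decide (H = 0) && decide (G * G ≤ 4 * A * C)))

def lf (P : Par) (d : D) (X0 X1 Y0 Y1 : ℤ) : Bool :=
  decide (3 * (d.u1 * d.u1) + d.v1 * d.v1 ≤ 3 * (P.N * P.N)) &&
  (decide (3 * (d.u2 * d.u2) + d.v2 * d.v2 ≤ 3 * (P.N * P.N)) &&
  (decide (3 * (d.u3 * d.u3) + d.v3 * d.v3 ≤ 3 * (P.N * P.N)) &&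
  (decide (3 * (d.u4 * d.u4) + d.v4 * d.v4 ≤ 3 * (P.N * P.N)) &&
  (decide (0 ≤ d.m1) && (decide (0 ≤ d.m2) &&
  (vtx P d X0 Y0 && (vtx P d X0 Y1 && (vtx P d X1 Y0 && vtx P d X1 Y1))))))))

inductive T where
  | nz : T
  | lf : D → T
  | sx : ℤ → T → T → T
  | sy : ℤ → T → T → T

def chk (P : Par) : T → ℤ → ℤ → ℤ → ℤ → Bool
  | .nz, _, X1, _, Y1 => decide (0 ≤ X1) && (decide (0 ≤ Y1) && decide (X1 * X1 + Y1 * Y1 ≤ P.R))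
  | .lf d, X0, X1, Y0, Y1 => lf P d X0 X1 Y0 Y1
  | .sx m a b, X0, X1, Y0, Y1 => chk P a X0 m Y0 Y1 && chk P b m X1 Y0 Y1
  | .sy m a b, X0, X1, Y0, Y1 => chk P a X0 X1 Y0 m && chk P b X0 X1 m Y1

/-- the inequality at a point -/
def Ineq (f l1 l2 : ℝ) (bx b y x : ℝ) : Prop :=
  3 / 2 * f * (x ^ 2 + y ^ 2) ≤ Sr bx b y x - 4 + 2 * bx + l1 * bx ^ 2 + 3 * l2 * b ^ 2

/-- the parallelogram (first quadrant) -/
def Rg (bx b y x : ℝ) : Prop :=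
  x - bx * x - 3 * b * y ≤ (1 - (bx ^ 2 + 3 * b ^ 2)) / 2 ∧
  y + bx * y - b * x ≤ (1 - (bx ^ 2 + 3 * b ^ 2)) / 2

/-- the lower bound of a cell at a point -/
noncomputable def E (u1 v1 u2 v2 u3 v3 u4 v4 m1 m2 f l1 l2 bx b x y : ℝ) : ℝ :=
  ((u1 + u2 + u3 + u4) + (v1 + v2 - v3 - v4)) / 2 - 4 + (u1 - u2 + u3 - u4) * x +
    (v1 - v2 + v3 - v4) * y - 3 / 2 * f * (x ^ 2 + y ^ 2) + m1 * (x - 1 / 2) + m2 * (y - 1 / 2) +
    (((u1 + u2 + u3 + u4) - (v1 + v2 - v3 - v4)) / 2 + 2 - m1 * x + m2 * y) * bx +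
    ((3 * (u1 + u2 - u3 - u4) + (v1 + v2 + v3 + v4)) / 2 - 3 * m1 * y - m2 * x) * b +
    (l1 + (m1 + m2) / 2) * bx ^ 2 + 3 * (l2 + (m1 + m2) / 2) * b ^ 2

theorem real_vtx (n u1 v1 u2 v2 u3 v3 u4 v4 m1 m2 f l1 l2 bx b x y : ℝ) (hn : 0 < n)
    (h1 : 0 < l1) (hm1 : 0 ≤ m1) (hm2 : 0 ≤ m2) (hB : 0 < 2 * (n * l2) + n * m1 + n * m2)
    (h : 3 * (2 * (n * l2) + n * m1 + n * m2) *
        ((n * (n * u1 + n * u2 + n * u3 + n * u4 - (n * v1 + n * v2 - n * v3 - n * v4)) +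
          4 * n * n - 2 * (n * m1) * (n * x) + 2 * (n * m2) * (n * y)) *
         (n * (n * u1 + n * u2 + n * u3 + n * u4 - (n * v1 + n * v2 - n * v3 - n * v4)) +
          4 * n * n - 2 * (n * m1) * (n * x) + 2 * (n * m2) * (n * y))) +
      (2 * (n * l1) + n * m1 + n * m2) *
        ((n * (3 * (n * u1 + n * u2 - n * u3 - n * u4) + (n * v1 + n * v2 + n * v3 + n * v4)) -
          6 * (n * m1) * (n * y) - 2 * (n * m2) * (n * x)) *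
         (n * (3 * (n * u1 + n * u2 - n * u3 - n * u4) + (n * v1 + n * v2 + n * v3 + n * v4)) -
          6 * (n * m1) * (n * y) - 2 * (n * m2) * (n * x))) ≤
      12 * (2 * (n * l1) + n * m1 + n * m2) * (2 * (n * l2) + n * m1 + n * m2) *
        (n * n * (n * u1 + n * u2 + n * u3 + n * u4 + (n * v1 + n * v2 - n * v3 - n * v4)) -
          8 * n * n * n +
          2 * n * ((n * u1 - n * u2 + n * u3 - n * u4) * (n * x) +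
            (n * v1 - n * v2 + n * v3 - n * v4) * (n * y)) -
          3 * (n * f) * (n * x * (n * x) + n * y * (n * y)) +
          n * (n * m1 * (2 * (n * x) - n)) + n * (n * m2 * (2 * (n * y) - n)))) :
    0 ≤ E u1 v1 u2 v2 u3 v3 u4 v4 m1 m2 f l1 l2 bx b x y := by
  unfold E
  apply quad
  · positivity
  · have e : 2 * (n * l2) + n * m1 + n * m2 = 2 * n * (l2 + (m1 + m2) / 2) := by ring
    rw [e] at hB
    exact pos_of_mul_pos_right hB (by positivity)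
  · have h8 : 0 < 8 * n ^ 5 := by positivity
    refine le_of_mul_le_mul_left ?_ h8
    linarith

theorem real_vtx0 (n u1 v1 u2 v2 u3 v3 u4 v4 m1 m2 f l1 l2 bx b x y : ℝ) (hn : 0 < n)
    (h1 : 0 < l1) (hm1 : 0 ≤ m1) (hm2 : 0 ≤ m2) (hB : 2 * (n * l2) + n * m1 + n * m2 = 0)
    (hH : n * (3 * (n * u1 + n * u2 - n * u3 - n * u4) + (n * v1 + n * v2 + n * v3 + n * v4)) -
          6 * (n * m1) * (n * y) - 2 * (n * m2) * (n * x) = 0)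
    (h : (n * (n * u1 + n * u2 + n * u3 + n * u4 - (n * v1 + n * v2 - n * v3 - n * v4)) +
          4 * n * n - 2 * (n * m1) * (n * x) + 2 * (n * m2) * (n * y)) *
         (n * (n * u1 + n * u2 + n * u3 + n * u4 - (n * v1 + n * v2 - n * v3 - n * v4)) +
          4 * n * n - 2 * (n * m1) * (n * x) + 2 * (n * m2) * (n * y)) ≤
      4 * (2 * (n * l1) + n * m1 + n * m2) *
        (n * n * (n * u1 + n * u2 + n * u3 + n * u4 + (n * v1 + n * v2 - n * v3 - n * v4)) -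
          8 * n * n * n +
          2 * n * ((n * u1 - n * u2 + n * u3 - n * u4) * (n * x) +
            (n * v1 - n * v2 + n * v3 - n * v4) * (n * y)) -
          3 * (n * f) * (n * x * (n * x) + n * y * (n * y)) +
          n * (n * m1 * (2 * (n * x) - n)) + n * (n * m2 * (2 * (n * y) - n)))) :
    0 ≤ E u1 v1 u2 v2 u3 v3 u4 v4 m1 m2 f l1 l2 bx b x y := by
  have eB : l2 + (m1 + m2) / 2 = 0 := by
    have e : 2 * (n * l2) + n * m1 + n * m2 = 2 * n * (l2 + (m1 + m2) / 2) := by ring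
    rw [e] at hB
    exact (mul_eq_zero.1 hB).resolve_left (by positivity)
  have eH : (3 * (u1 + u2 - u3 - u4) + (v1 + v2 + v3 + v4)) / 2 - 3 * m1 * y - m2 * x = 0 := by
    have e : n * (3 * (n * u1 + n * u2 - n * u3 - n * u4) + (n * v1 + n * v2 + n * v3 + n * v4)) -
          6 * (n * m1) * (n * y) - 2 * (n * m2) * (n * x) = 2 * n ^ 2 *
        ((3 * (u1 + u2 - u3 - u4) + (v1 + v2 + v3 + v4)) / 2 - 3 * m1 * y - m2 * x) := by ring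
    rw [e] at hH
    exact (mul_eq_zero.1 hH).resolve_left (by positivity)
  unfold E
  rw [eB, eH]
  have key := quad0 (l1 + (m1 + m2) / 2)
    (((u1 + u2 + u3 + u4) + (v1 + v2 - v3 - v4)) / 2 - 4 + (u1 - u2 + u3 - u4) * x +
    (v1 - v2 + v3 - v4) * y - 3 / 2 * f * (x ^ 2 + y ^ 2) + m1 * (x - 1 / 2) + m2 * (y - 1 / 2))
    (((u1 + u2 + u3 + u4) - (v1 + v2 - v3 - v4)) / 2 + 2 - m1 * x + m2 * y) bx (by positivity)
    (by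
      have h8 : 0 < 4 * n ^ 4 := by positivity
      refine le_of_mul_le_mul_left ?_ h8
      linarith)
  linarith

theorem vtx_sound (P : Par) (d : D) (X Y : ℤ) (h : vtx P d X Y = true)
    (n u1 v1 u2 v2 u3 v3 u4 v4 m1 m2 f l1 l2 bx b x y : ℝ) (hn : 0 < n) (h1 : 0 < l1)
    (hm1 : 0 ≤ m1) (hm2 : 0 ≤ m2)
    (hN : (P.N : ℝ) = n) (hF : (P.F : ℝ) = n * f) (hP1 : (P.P1 : ℝ) = n * l1)
    (hP2 : (P.P2 : ℝ) = n * l2) (e1 : (d.u1 : ℝ) = n * u1) (e2 : (d.v1 : ℝ) = n * v1)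
    (e3 : (d.u2 : ℝ) = n * u2) (e4 : (d.v2 : ℝ) = n * v2) (e5 : (d.u3 : ℝ) = n * u3)
    (e6 : (d.v3 : ℝ) = n * v3) (e7 : (d.u4 : ℝ) = n * u4) (e8 : (d.v4 : ℝ) = n * v4)
    (e9 : (d.m1 : ℝ) = n * m1) (e10 : (d.m2 : ℝ) = n * m2) (eX : (X : ℝ) = n * x)
    (eY : (Y : ℝ) = n * y) : 0 ≤ E u1 v1 u2 v2 u3 v3 u4 v4 m1 m2 f l1 l2 bx b x y := by
  simp only [vtx, Bool.or_eq_true, Bool.and_eq_true, decide_eq_true_eq] at h
  rcases h with ⟨hb, h'⟩ | ⟨hb, hH, h'⟩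
  · have hbr : (0 : ℝ) < ((2 * P.P2 + d.m1 + d.m2 : ℤ) : ℝ) := by exact_mod_cast hb
    have hr := (Int.cast_le (R := ℝ)).2 h'
    push_cast at hr hbr
    rw [hN, hF, hP1, hP2, e1, e2, e3, e4, e5, e6, e7, e8, e9, e10, eX, eY] at hr
    rw [hP2, e9, e10] at hbr
    exact real_vtx n u1 v1 u2 v2 u3 v3 u4 v4 m1 m2 f l1 l2 bx b x y hn h1 hm1 hm2 hbr hr
  · have hbr := congrArg (Int.cast (R := ℝ)) hb
    have hHr := congrArg (Int.cast (R := ℝ)) hH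
    have hr := (Int.cast_le (R := ℝ)).2 h'
    push_cast at hr hbr hHr
    rw [hN, hF, hP1, e1, e2, e3, e4, e5, e6, e7, e8, e9, e10, eX, eY] at hr
    rw [hP2, e9, e10] at hbr
    rw [hN, e1, e2, e3, e4, e5, e6, e7, e8, e9, e10, eX, eY] at hHr
    exact real_vtx0 n u1 v1 u2 v2 u3 v3 u4 v4 m1 m2 f l1 l2 bx b x y hn h1 hm1 hm2 hbr hHr hr

/-- `E` is below the function -/
theorem E_le (u1 v1 u2 v2 u3 v3 u4 v4 m1 m2 f l1 l2 bx b x y : ℝ) (hm1 : 0 ≤ m1) (hm2 : 0 ≤ m2)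
    (n1 : 3 * u1 ^ 2 + v1 ^ 2 ≤ 3) (n2 : 3 * u2 ^ 2 + v2 ^ 2 ≤ 3) (n3 : 3 * u3 ^ 2 + v3 ^ 2 ≤ 3)
    (n4 : 3 * u4 ^ 2 + v4 ^ 2 ≤ 3) (hR : Rg bx b y x)
    (h : 0 ≤ E u1 v1 u2 v2 u3 v3 u4 v4 m1 m2 f l1 l2 bx b x y) : Ineq f l1 l2 bx b y x := by
  obtain ⟨r1, r2⟩ := hR
  unfold Ineq Sr
  have g1 := nr_ge (1 / 2 + bx / 2 + 3 / 2 * b + x) ((1 + b - bx) / 2 + y) u1 v1 n1
  have g2 := nr_ge (1 / 2 + bx / 2 + 3 / 2 * b - x) ((1 + b - bx) / 2 - y) u2 v2 n2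
  have g3 := nr_ge (1 / 2 + bx / 2 - 3 / 2 * b + x) ((-1 + b + bx) / 2 + y) u3 v3 n3
  have g4 := nr_ge (1 / 2 + bx / 2 - 3 / 2 * b - x) ((-1 + b + bx) / 2 - y) u4 v4 n4
  have k1 := mul_nonneg hm1 (sub_nonneg.2 r1)
  have k2 := mul_nonneg hm2 (sub_nonneg.2 r2)
  unfold E at h
  nlinarith

/-- a pair of opposite edges: `|v1| + |v2| ≥ |v1 + conj v2|` in rotated coordinates -/
theorem pair_ge (R1 I1 R2 I2 a1 a2 : ℝ) (ha1 : 0 ≤ a1) (ha2 : 0 ≤ a2) (h1 : a1 ^ 2 = R1 ^ 2 + I1 ^ 2)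
    (h2 : a2 ^ 2 = R2 ^ 2 + I2 ^ 2) :
    (R1 + R2) ^ 2 + (I1 - I2) ^ 2 ≤ (a1 + a2) ^ 2 := by
  have h3 : (R1 * R2 - I1 * I2) ^ 2 ≤ (a1 * a2) ^ 2 := by
    rw [mul_pow, h1, h2]
    nlinarith [sq_nonneg (R1 * I2 + I1 * R2)]
  have h4 : R1 * R2 - I1 * I2 ≤ a1 * a2 := abs_le_of_sq_le_sq' h3 (by positivity) |>.2
  nlinarith

theorem nr_sq (X Y : ℝ) : nr X Y ^ 2 = X ^ 2 + 3 * Y ^ 2 := Real.sq_sqrt (by positivity)

theorem nr_nn (X Y : ℝ) : 0 ≤ nr X Y := Real.sqrt_nonneg _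

/-- the elementary bound -/
theorem low (l w e m : ℝ) (hl : 0 ≤ l) (hm : l ≤ m) (he : 0 ≤ e) (h : 4 * e ≤ l * (l + 4 * w)) :
    e * (2 - w - m / 4) ≤ l := by
  have h1 : e ≤ l * (w + m / 4) := by nlinarith
  rcases le_or_gt (w + m / 4) 0 with hW | hW
  · have h2 : e = 0 := by
      have : l * (w + m / 4) ≤ 0 := mul_nonpos_of_nonneg_of_nonpos hl hW
      linarith
    rw [h2, zero_mul]
    exact hl
  · have e1 : e * (2 - w - m / 4) = e * (2 - (w + m / 4)) := by ring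
    rw [e1]
    generalize w + m / 4 = W at *
    rcases le_or_gt (2 - W) 0 with h2 | h2
    · exact (mul_nonpos_of_nonneg_of_nonpos he h2).trans hl
    · have h3 : e * (2 - W) ≤ l * W * (2 - W) := mul_le_mul_of_nonneg_right h1 h2.le
      have h4 : 0 ≤ l * (W - 1) ^ 2 := by positivity
      nlinarith

/-- near `z = 0` -/
theorem near (f l1 l2 Q bx b x y : ℝ) (hl1 : 0 < l1) (hl2 : 0 < l2) (hf : 0 < f)
    (hq : 3 / 2 * (x ^ 2 + y ^ 2) ≤ Q) (hQ : Q * (1 / (16 * l1) + 3 / (16 * l2)) ≤ 1 - f - f * Q / 4) :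
    Ineq f l1 l2 bx b y x := by
  unfold Ineq Sr
  set a1 := nr (1 / 2 + bx / 2 + 3 / 2 * b + x) ((1 + b - bx) / 2 + y) with ha1
  set a2 := nr (1 / 2 + bx / 2 + 3 / 2 * b - x) ((1 + b - bx) / 2 - y) with ha2
  set a3 := nr (1 / 2 + bx / 2 - 3 / 2 * b + x) ((-1 + b + bx) / 2 + y) with ha3
  set a4 := nr (1 / 2 + bx / 2 - 3 / 2 * b - x) ((-1 + b + bx) / 2 - y) with ha4
  have s1 : a1 ^ 2 = _ := nr_sq _ _
  have s2 : a2 ^ 2 = _ := nr_sq _ _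
  have s3 : a3 ^ 2 = _ := nr_sq _ _
  have s4 : a4 ^ 2 = _ := nr_sq _ _
  have p1 : 0 ≤ a1 := nr_nn _ _
  have p2 : 0 ≤ a2 := nr_nn _ _
  have p3 : 0 ≤ a3 := nr_nn _ _
  have p4 : 0 ≤ a4 := nr_nn _ _
  clear_value a1 a2 a3 a4
  have hs3 : (Real.sqrt 3) ^ 2 = 3 := Real.sq_sqrt (by norm_num)
  have q1 := pair_ge ((1 / 2 + bx / 2 + 3 / 2 * b + x) / 2 + 3 / 2 * ((1 + b - bx) / 2 + y))
    (Real.sqrt 3 / 2 * (((1 + b - bx) / 2 + y) - (1 / 2 + bx / 2 + 3 / 2 * b + x)))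
    ((1 / 2 + bx / 2 + 3 / 2 * b - x) / 2 + 3 / 2 * ((1 + b - bx) / 2 - y))
    (Real.sqrt 3 / 2 * (((1 + b - bx) / 2 - y) - (1 / 2 + bx / 2 + 3 / 2 * b - x)))
    a1 a2 p1 p2 (by rw [s1, mul_pow, div_pow, hs3]; ring) (by rw [s2, mul_pow, div_pow, hs3]; ring)
  have q2 := pair_ge ((1 / 2 + bx / 2 - 3 / 2 * b + x) / 2 - 3 / 2 * ((-1 + b + bx) / 2 + y))
    (Real.sqrt 3 / 2 * (((-1 + b + bx) / 2 + y) + (1 / 2 + bx / 2 - 3 / 2 * b + x)))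
    ((1 / 2 + bx / 2 - 3 / 2 * b - x) / 2 - 3 / 2 * ((-1 + b + bx) / 2 - y))
    (Real.sqrt 3 / 2 * (((-1 + b + bx) / 2 - y) + (1 / 2 + bx / 2 - 3 / 2 * b - x)))
    a3 a4 p3 p4 (by rw [s3, mul_pow, div_pow, hs3]; ring) (by rw [s4, mul_pow, div_pow, hs3]; ring)
  have r1 : 4 * (1 - bx / 2 + 3 / 2 * b) ^ 2 + 4 * (3 / 4 * (y - x) ^ 2) ≤ (a1 + a2) ^ 2 := by
    have e : (Real.sqrt 3 / 2 * (((1 + b - bx) / 2 + y) - (1 / 2 + bx / 2 + 3 / 2 * b + x)) -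
        Real.sqrt 3 / 2 * (((1 + b - bx) / 2 - y) - (1 / 2 + bx / 2 + 3 / 2 * b - x))) ^ 2 =
        Real.sqrt 3 ^ 2 * (y - x) ^ 2 := by ring
    rw [e, hs3] at q1
    nlinarith
  have r2 : 4 * (1 - bx / 2 - 3 / 2 * b) ^ 2 + 4 * (3 / 4 * (y + x) ^ 2) ≤ (a3 + a4) ^ 2 := by
    have e : (Real.sqrt 3 / 2 * (((-1 + b + bx) / 2 + y) + (1 / 2 + bx / 2 - 3 / 2 * b + x)) -
        Real.sqrt 3 / 2 * (((-1 + b + bx) / 2 - y) + (1 / 2 + bx / 2 - 3 / 2 * b - x))) ^ 2 =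
        Real.sqrt 3 ^ 2 * (y + x) ^ 2 := by ring
    rw [e, hs3] at q2
    nlinarith
  clear q1 q2 s1 s2 s3 s4
  have t1 : 2 * (1 - bx / 2 + 3 / 2 * b) ≤ a1 + a2 := by
    apply (abs_le_of_sq_le_sq' (a := 2 * (1 - bx / 2 + 3 / 2 * b)) _ (by positivity)).2
    nlinarith [sq_nonneg (y - x)]
  have t2 : 2 * (1 - bx / 2 - 3 / 2 * b) ≤ a3 + a4 := by
    apply (abs_le_of_sq_le_sq' (a := 2 * (1 - bx / 2 - 3 / 2 * b)) _ (by positivity)).2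
    nlinarith [sq_nonneg (y + x)]
  by_contra hcon
  push Not at hcon
  have hT : a1 + a2 + a3 + a4 - 4 + 2 * bx < 3 / 2 * f * (x ^ 2 + y ^ 2) := by
    have : 0 ≤ l1 * bx ^ 2 + 3 * l2 * b ^ 2 := by positivity
    linarith
  have u1 := low (a1 + a2 - 2 * (1 - bx / 2 + 3 / 2 * b)) (1 - bx / 2 + 3 / 2 * b)
    (3 / 4 * (y - x) ^ 2) (3 / 2 * f * (x ^ 2 + y ^ 2)) (by linarith) (by linarith) (by positivity)
    (by nlinarith)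
  have u2 := low (a3 + a4 - 2 * (1 - bx / 2 - 3 / 2 * b)) (1 - bx / 2 - 3 / 2 * b)
    (3 / 4 * (y + x) ^ 2) (3 / 2 * f * (x ^ 2 + y ^ 2)) (by linarith) (by linarith) (by positivity)
    (by nlinarith)
  have hq0 : 0 ≤ 3 / 2 * (x ^ 2 + y ^ 2) := by positivity
  -- the two squares
  have k1 : -(3 / 2 * (x ^ 2 + y ^ 2)) ^ 2 * (1 / (16 * l1)) ≤
      3 / 2 * (x ^ 2 + y ^ 2) / 2 * bx + l1 * bx ^ 2 := by
    have : 0 ≤ l1 * (bx + 3 / 2 * (x ^ 2 + y ^ 2) / (4 * l1)) ^ 2 := by positivity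
    have e : l1 * (bx + 3 / 2 * (x ^ 2 + y ^ 2) / (4 * l1)) ^ 2 =
      3 / 2 * (x ^ 2 + y ^ 2) / 2 * bx + l1 * bx ^ 2 +
        (3 / 2 * (x ^ 2 + y ^ 2)) ^ 2 * (1 / (16 * l1)) := by
      field_simp
      ring
    linarith
  have k2 : -(3 / 2 * (x ^ 2 + y ^ 2)) ^ 2 * (3 / (16 * l2)) ≤
      3 / 2 * b * (3 * (x * y)) + 3 * l2 * b ^ 2 := by
    have h1 : 0 ≤ 3 * l2 * (b + 3 * (x * y) / (4 * l2)) ^ 2 := by positivity
    have e : 3 * l2 * (b + 3 * (x * y) / (4 * l2)) ^ 2 =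
      3 / 2 * b * (3 * (x * y)) + 3 * l2 * b ^ 2 + (3 * (x * y)) ^ 2 * (3 / (16 * l2)) := by
      field_simp
      ring
    have h2 : (3 * (x * y)) ^ 2 * (3 / (16 * l2)) ≤
        (3 / 2 * (x ^ 2 + y ^ 2)) ^ 2 * (3 / (16 * l2)) := by
      apply mul_le_mul_of_nonneg_right _ (by positivity)
      nlinarith [sq_nonneg (x ^ 2 - y ^ 2), sq_nonneg (x - y), sq_nonneg (x + y)]
    linarith
  have k3 : 3 / 2 * (x ^ 2 + y ^ 2) * (1 / (16 * l1) + 3 / (16 * l2)) ≤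
      1 - f - f * (3 / 2 * (x ^ 2 + y ^ 2)) / 4 := by
    have h1 : 3 / 2 * (x ^ 2 + y ^ 2) * (1 / (16 * l1) + 3 / (16 * l2)) ≤
        Q * (1 / (16 * l1) + 3 / (16 * l2)) := mul_le_mul_of_nonneg_right hq (by positivity)
    have h2 : f * (3 / 2 * (x ^ 2 + y ^ 2)) ≤ f * Q := mul_le_mul_of_nonneg_left hq hf.le
    linarith
  have k4 := mul_le_mul_of_nonneg_left k3 hq0
  nlinarith

/-- the coercive bound -/
theorem coer (a w t : ℝ) (ha : 0 ≤ a) (hw : w ≤ 2) (ht : 0 ≤ t) (hwt : w ^ 2 + t ≤ 4)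
    (h : 4 * (w ^ 2 + t) ≤ a ^ 2) : 2 * w + t / 2 ≤ a := by
  apply (abs_le_of_sq_le_sq' (a := 2 * w + t / 2) _ ha).2
  have h1 := mul_nonneg ht (sub_nonneg.2 hwt)
  have h2 : 0 ≤ t * ((2 - w) * (6 - w)) :=
    mul_nonneg ht (mul_nonneg (by linarith) (by linarith))
  linarith

/-- near `z = 0`, the case `l2 = 0` -/
theorem near0 (f l1 Q B0 bx b x y : ℝ) (hl1 : 0 < l1) (hf : 0 < f) (hB0 : 0 ≤ B0)
    (hbb : bx ^ 2 + 3 * b ^ 2 ≤ 1) (hq : 3 / 2 * (x ^ 2 + y ^ 2) ≤ Q) (hB : 4 * f * Q ≤ 3 * B0 ^ 2)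
    (hQ : Q / (16 * l1) + f * Q / 4 + 3 / 2 * B0 ≤ 1 - f) : Ineq f l1 0 bx b y x := by
  unfold Ineq Sr
  set a1 := nr (1 / 2 + bx / 2 + 3 / 2 * b + x) ((1 + b - bx) / 2 + y) with ha1
  set a2 := nr (1 / 2 + bx / 2 + 3 / 2 * b - x) ((1 + b - bx) / 2 - y) with ha2
  set a3 := nr (1 / 2 + bx / 2 - 3 / 2 * b + x) ((-1 + b + bx) / 2 + y) with ha3
  set a4 := nr (1 / 2 + bx / 2 - 3 / 2 * b - x) ((-1 + b + bx) / 2 - y) with ha4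
  have s1 : a1 ^ 2 = _ := nr_sq _ _
  have s2 : a2 ^ 2 = _ := nr_sq _ _
  have s3 : a3 ^ 2 = _ := nr_sq _ _
  have s4 : a4 ^ 2 = _ := nr_sq _ _
  have p1 : 0 ≤ a1 := nr_nn _ _
  have p2 : 0 ≤ a2 := nr_nn _ _
  have p3 : 0 ≤ a3 := nr_nn _ _
  have p4 : 0 ≤ a4 := nr_nn _ _
  clear_value a1 a2 a3 a4
  have hs3 : (Real.sqrt 3) ^ 2 = 3 := Real.sq_sqrt (by norm_num)
  have q1 := pair_ge ((1 / 2 + bx / 2 + 3 / 2 * b + x) / 2 + 3 / 2 * ((1 + b - bx) / 2 + y))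
    (Real.sqrt 3 / 2 * (((1 + b - bx) / 2 + y) - (1 / 2 + bx / 2 + 3 / 2 * b + x)))
    ((1 / 2 + bx / 2 + 3 / 2 * b - x) / 2 + 3 / 2 * ((1 + b - bx) / 2 - y))
    (Real.sqrt 3 / 2 * (((1 + b - bx) / 2 - y) - (1 / 2 + bx / 2 + 3 / 2 * b - x)))
    a1 a2 p1 p2 (by rw [s1, mul_pow, div_pow, hs3]; ring) (by rw [s2, mul_pow, div_pow, hs3]; ring)
  have q2 := pair_ge ((1 / 2 + bx / 2 - 3 / 2 * b + x) / 2 - 3 / 2 * ((-1 + b + bx) / 2 + y))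
    (Real.sqrt 3 / 2 * (((-1 + b + bx) / 2 + y) + (1 / 2 + bx / 2 - 3 / 2 * b + x)))
    ((1 / 2 + bx / 2 - 3 / 2 * b - x) / 2 - 3 / 2 * ((-1 + b + bx) / 2 - y))
    (Real.sqrt 3 / 2 * (((-1 + b + bx) / 2 - y) + (1 / 2 + bx / 2 - 3 / 2 * b - x)))
    a3 a4 p3 p4 (by rw [s3, mul_pow, div_pow, hs3]; ring) (by rw [s4, mul_pow, div_pow, hs3]; ring)
  -- coercivity: `a1 + a2 ≥ 2 |V|`
  have c1 := pair_ge (1 / 2 + bx / 2 + 3 / 2 * b + x) (Real.sqrt 3 * ((1 + b - bx) / 2 + y))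
    (1 / 2 + bx / 2 + 3 / 2 * b - x) (-(Real.sqrt 3 * ((1 + b - bx) / 2 - y))) a1 a2 p1 p2
    (by rw [s1, mul_pow, hs3]) (by rw [s2, neg_sq, mul_pow, hs3])
  have c2 := pair_ge (1 / 2 + bx / 2 - 3 / 2 * b + x) (Real.sqrt 3 * ((-1 + b + bx) / 2 + y))
    (1 / 2 + bx / 2 - 3 / 2 * b - x) (-(Real.sqrt 3 * ((-1 + b + bx) / 2 - y))) a3 a4 p3 p4
    (by rw [s3, mul_pow, hs3]) (by rw [s4, neg_sq, mul_pow, hs3])
  have r1 : 4 * (1 - bx / 2 + 3 / 2 * b) ^ 2 + 4 * (3 / 4 * (y - x) ^ 2) ≤ (a1 + a2) ^ 2 := by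
    have e : (Real.sqrt 3 / 2 * (((1 + b - bx) / 2 + y) - (1 / 2 + bx / 2 + 3 / 2 * b + x)) -
        Real.sqrt 3 / 2 * (((1 + b - bx) / 2 - y) - (1 / 2 + bx / 2 + 3 / 2 * b - x))) ^ 2 =
        Real.sqrt 3 ^ 2 * (y - x) ^ 2 := by ring
    rw [e, hs3] at q1
    nlinarith
  have r2 : 4 * (1 - bx / 2 - 3 / 2 * b) ^ 2 + 4 * (3 / 4 * (y + x) ^ 2) ≤ (a3 + a4) ^ 2 := by
    have e : (Real.sqrt 3 / 2 * (((-1 + b + bx) / 2 + y) + (1 / 2 + bx / 2 - 3 / 2 * b + x)) -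
        Real.sqrt 3 / 2 * (((-1 + b + bx) / 2 - y) + (1 / 2 + bx / 2 - 3 / 2 * b - x))) ^ 2 =
        Real.sqrt 3 ^ 2 * (y + x) ^ 2 := by ring
    rw [e, hs3] at q2
    nlinarith
  have d1 : 4 * ((1 - bx / 2 + 3 / 2 * b) ^ 2 + 3 / 4 * (bx + b) ^ 2) ≤ (a1 + a2) ^ 2 := by
    have e : (Real.sqrt 3 * ((1 + b - bx) / 2 + y) - -(Real.sqrt 3 * ((1 + b - bx) / 2 - y))) ^ 2 =
        Real.sqrt 3 ^ 2 * (1 + b - bx) ^ 2 := by ring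
    rw [e, hs3] at c1
    nlinarith
  have d2 : 4 * ((1 - bx / 2 - 3 / 2 * b) ^ 2 + 3 / 4 * (bx - b) ^ 2) ≤ (a3 + a4) ^ 2 := by
    have e : (Real.sqrt 3 * ((-1 + b + bx) / 2 + y) - -(Real.sqrt 3 * ((-1 + b + bx) / 2 - y))) ^ 2 =
        Real.sqrt 3 ^ 2 * (-1 + b + bx) ^ 2 := by ring
    rw [e, hs3] at c2
    nlinarith
  clear q1 q2 c1 c2 s1 s2 s3 s4
  have t1 : 2 * (1 - bx / 2 + 3 / 2 * b) ≤ a1 + a2 := by
    apply (abs_le_of_sq_le_sq' (a := 2 * (1 - bx / 2 + 3 / 2 * b)) _ (by positivity)).2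
    nlinarith [sq_nonneg (y - x)]
  have t2 : 2 * (1 - bx / 2 - 3 / 2 * b) ≤ a3 + a4 := by
    apply (abs_le_of_sq_le_sq' (a := 2 * (1 - bx / 2 - 3 / 2 * b)) _ (by positivity)).2
    nlinarith [sq_nonneg (y + x)]
  by_contra hcon
  push Not at hcon
  have hT : a1 + a2 + a3 + a4 - 4 + 2 * bx < 3 / 2 * f * (x ^ 2 + y ^ 2) := by
    have : 0 ≤ l1 * bx ^ 2 := by positivity
    linarith
  have u1 := low (a1 + a2 - 2 * (1 - bx / 2 + 3 / 2 * b)) (1 - bx / 2 + 3 / 2 * b)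
    (3 / 4 * (y - x) ^ 2) (3 / 2 * f * (x ^ 2 + y ^ 2)) (by linarith) (by linarith) (by positivity)
    (by nlinarith)
  have u2 := low (a3 + a4 - 2 * (1 - bx / 2 - 3 / 2 * b)) (1 - bx / 2 - 3 / 2 * b)
    (3 / 4 * (y + x) ^ 2) (3 / 2 * f * (x ^ 2 + y ^ 2)) (by linarith) (by linarith) (by positivity)
    (by nlinarith)
  have hq0 : 0 ≤ 3 / 2 * (x ^ 2 + y ^ 2) := by positivity
  have g1 : -bx + 3 * b ≤ 2 := by
    apply (abs_le_of_sq_le_sq' (a := -bx + 3 * b) _ (by norm_num)).2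
    nlinarith [sq_nonneg (3 * bx + 3 * b)]
  have g2 : -bx - 3 * b ≤ 2 := by
    apply (abs_le_of_sq_le_sq' (a := -bx - 3 * b) _ (by norm_num)).2
    nlinarith [sq_nonneg (3 * bx - 3 * b)]
  have e1 := coer (a1 + a2) (1 - bx / 2 + 3 / 2 * b) (3 / 4 * (bx + b) ^ 2) (by positivity)
    (by linarith) (by positivity) (by nlinarith) d1
  have e2 := coer (a3 + a4) (1 - bx / 2 - 3 / 2 * b) (3 / 4 * (bx - b) ^ 2) (by positivity)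
    (by linarith) (by positivity) (by nlinarith) d2
  have hb2 : b ^ 2 ≤ B0 ^ 2 := by
    have h1 : 3 / 4 * b ^ 2 ≤ 3 / 2 * f * (x ^ 2 + y ^ 2) := by
      have h0 : 0 ≤ 3 / 4 * bx ^ 2 := by positivity
      have h3 : 3 / 4 * (bx + b) ^ 2 / 2 + 3 / 4 * (bx - b) ^ 2 / 2 =
          3 / 4 * bx ^ 2 + 3 / 4 * b ^ 2 := by ring
      linarith
    have h2 : f * (3 / 2 * (x ^ 2 + y ^ 2)) ≤ f * Q := mul_le_mul_of_nonneg_left hq hf.le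
    linarith
  have hbB : |b| ≤ B0 := abs_le_of_sq_le_sq hb2 hB0
  have hxy : |3 * (x * y)| ≤ 3 / 2 * (x ^ 2 + y ^ 2) := by
    rw [abs_le]
    constructor <;> nlinarith [sq_nonneg (x - y), sq_nonneg (x + y)]
  have hm : |b * (3 * (x * y))| ≤ B0 * (3 / 2 * (x ^ 2 + y ^ 2)) := by
    rw [abs_mul]
    exact mul_le_mul hbB hxy (abs_nonneg _) hB0
  have hm' := (abs_le.1 hm).1
  have k1 : -(3 / 2 * (x ^ 2 + y ^ 2)) ^ 2 * (1 / (16 * l1)) ≤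
      3 / 2 * (x ^ 2 + y ^ 2) / 2 * bx + l1 * bx ^ 2 := by
    have : 0 ≤ l1 * (bx + 3 / 2 * (x ^ 2 + y ^ 2) / (4 * l1)) ^ 2 := by positivity
    have e : l1 * (bx + 3 / 2 * (x ^ 2 + y ^ 2) / (4 * l1)) ^ 2 =
      3 / 2 * (x ^ 2 + y ^ 2) / 2 * bx + l1 * bx ^ 2 +
        (3 / 2 * (x ^ 2 + y ^ 2)) ^ 2 * (1 / (16 * l1)) := by
      field_simp
      ring
    linarith
  have k3 : 3 / 2 * (x ^ 2 + y ^ 2) * (1 / (16 * l1)) ≤
      1 - f - f * (3 / 2 * (x ^ 2 + y ^ 2)) / 4 - 3 / 2 * B0 := by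
    have h1 : 3 / 2 * (x ^ 2 + y ^ 2) * (1 / (16 * l1)) ≤ Q * (1 / (16 * l1)) :=
      mul_le_mul_of_nonneg_right hq (by positivity)
    have h2 : f * (3 / 2 * (x ^ 2 + y ^ 2)) ≤ f * Q := mul_le_mul_of_nonneg_left hq hf.le
    have h3 : Q * (1 / (16 * l1)) = Q / (16 * l1) := by ring
    linarith
  have k4 := mul_le_mul_of_nonneg_left k3 hq0
  clear e1 e2 d1 d2 r1 r2 t1 t2 g1 g2 hb2 hbB hxy hm k3 hbb hq hB hQ
  have z1 : 3 / 2 * (x ^ 2 + y ^ 2) * (1 + bx / 2 - 3 / 2 * f * (x ^ 2 + y ^ 2) / 4) +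
      3 / 2 * (b * (3 * (x * y))) ≤ a1 + a2 + a3 + a4 - 4 + 2 * bx := by
    linarith
  have z2 : (3 / 2 * (x ^ 2 + y ^ 2)) * (f * (3 / 2 * (x ^ 2 + y ^ 2)) / 4) =
    3 / 2 * (x ^ 2 + y ^ 2) * (3 / 2 * f * (x ^ 2 + y ^ 2) / 4) := by ring
  linarith

theorem chk_sound (P : Par) (n f l1 l2 : ℝ) (hn : 0 < n) (hf : 0 < f) (h1 : 0 < l1)
    (hN : (P.N : ℝ) = n) (hF : (P.F : ℝ) = n * f) (hP1 : (P.P1 : ℝ) = n * l1)
    (hP2 : (P.P2 : ℝ) = n * l2) (Q : ℝ) (hR : 3 / 2 * (P.R : ℝ) ≤ n ^ 2 * Q)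
    (hQ : ∀ bx b x y : ℝ, bx ^ 2 + 3 * b ^ 2 ≤ 1 → 3 / 2 * (x ^ 2 + y ^ 2) ≤ Q →
      Ineq f l1 l2 bx b y x) (t : T) :
    ∀ X0 X1 Y0 Y1 : ℤ, chk P t X0 X1 Y0 Y1 = true → ∀ bx b x y : ℝ, bx ^ 2 + 3 * b ^ 2 ≤ 1 →
      Rg bx b y x →
      (X0 : ℝ) ≤ n * x → n * x ≤ X1 → (Y0 : ℝ) ≤ n * y → n * y ≤ Y1 → 0 ≤ x → 0 ≤ y →
      Ineq f l1 l2 bx b y x := by
  induction t with
  | nz =>
    intro X0 X1 Y0 Y1 h bx b x y hbb _ _ hx1 _ hy1 hx hy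
    simp only [chk, Bool.and_eq_true, decide_eq_true_eq] at h
    obtain ⟨hX, hY, hXY⟩ := h
    apply hQ bx b x y hbb
    have a1 : (n * x) ^ 2 ≤ (X1 : ℝ) ^ 2 := by
      apply pow_le_pow_left₀ (by positivity) hx1
    have a2 : (n * y) ^ 2 ≤ (Y1 : ℝ) ^ 2 := by
      apply pow_le_pow_left₀ (by positivity) hy1
    have a3 : (X1 : ℝ) * X1 + Y1 * Y1 ≤ P.R := by exact_mod_cast hXY
    have a4 : n ^ 2 * (3 / 2 * (x ^ 2 + y ^ 2)) ≤ n ^ 2 * Q := by nlinarith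
    exact le_of_mul_le_mul_left a4 (by positivity)
  | lf d =>
    intro X0 X1 Y0 Y1 h bx b x y hbb hRg hx0 hx1 hy0 hy1 hx hy
    simp only [chk, lf, Bool.and_eq_true, decide_eq_true_eq] at h
    obtain ⟨c1, c2, c3, c4, c5, c6, c7, c8, c9, c10⟩ := h
    have hd : ∀ z : ℤ, (z : ℝ) = n * ((z : ℝ) / n) := fun z => by field_simp
    have hnr : ∀ u v : ℤ, 3 * (u * u) + v * v ≤ 3 * (P.N * P.N) →
        3 * ((u : ℝ) / n) ^ 2 + ((v : ℝ) / n) ^ 2 ≤ 3 := by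
      intro u v huv
      have e : 3 * ((u : ℝ) * u) + v * v ≤ 3 * (n * n) := by
        rw [← hN]
        exact_mod_cast huv
      rw [div_pow, div_pow, ← mul_div_assoc, ← add_div, div_le_iff₀ (by positivity)]
      nlinarith
    have hm1 : (0 : ℝ) ≤ (d.m1 : ℝ) / n := div_nonneg (by exact_mod_cast c5) hn.le
    have hm2 : (0 : ℝ) ≤ (d.m2 : ℝ) / n := div_nonneg (by exact_mod_cast c6) hn.le
    have key := fun (X Y : ℤ) (hv : vtx P d X Y = true) =>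
      vtx_sound P d X Y hv n (d.u1 / n) (d.v1 / n) (d.u2 / n) (d.v2 / n) (d.u3 / n) (d.v3 / n)
        (d.u4 / n) (d.v4 / n) (d.m1 / n) (d.m2 / n) f l1 l2 bx b (X / n) (Y / n) hn h1 hm1 hm2
        hN hF hP1 hP2 (hd _) (hd _) (hd _) (hd _) (hd _) (hd _) (hd _) (hd _) (hd _) (hd _)
        (hd _) (hd _)
    have k00 := key X0 Y0 c7
    have k01 := key X0 Y1 c8
    have k10 := key X1 Y0 c9
    have k11 := key X1 Y1 c10
    apply E_le (d.u1 / n) (d.v1 / n) (d.u2 / n) (d.v2 / n) (d.u3 / n) (d.v3 / n) (d.u4 / n)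
      (d.v4 / n) (d.m1 / n) (d.m2 / n) f l1 l2 bx b x y hm1 hm2 (hnr _ _ c1) (hnr _ _ c2)
      (hnr _ _ c3) (hnr _ _ c4) hRg
    generalize (d.u1 : ℝ) / n = u1 at *
    generalize (d.v1 : ℝ) / n = v1 at *
    generalize (d.u2 : ℝ) / n = u2 at *
    generalize (d.v2 : ℝ) / n = v2 at *
    generalize (d.u3 : ℝ) / n = u3 at *
    generalize (d.v3 : ℝ) / n = v3 at *
    generalize (d.u4 : ℝ) / n = u4 at *
    generalize (d.v4 : ℝ) / n = v4 at *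
    generalize (d.m1 : ℝ) / n = m1 at *
    generalize (d.m2 : ℝ) / n = m2 at *
    have bb := box
      (((u1 + u2 + u3 + u4) + (v1 + v2 - v3 - v4)) / 2 - 4 - m1 / 2 - m2 / 2 +
        (((u1 + u2 + u3 + u4) - (v1 + v2 - v3 - v4)) / 2 + 2) * bx +
        ((3 * (u1 + u2 - u3 - u4) + (v1 + v2 + v3 + v4)) / 2) * b +
        (l1 + (m1 + m2) / 2) * bx ^ 2 + 3 * (l2 + (m1 + m2) / 2) * b ^ 2)
      ((u1 - u2 + u3 - u4) + m1 - m1 * bx - m2 * b)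
      ((v1 - v2 + v3 - v4) + m2 + m2 * bx - 3 * m1 * b)
      (3 / 2 * f) (X0 / n) (X1 / n) (Y0 / n) (Y1 / n) x y (by positivity)
      ((div_le_iff₀' hn).2 hx0) ((le_div_iff₀' hn).2 hx1) ((div_le_iff₀' hn).2 hy0)
      ((le_div_iff₀' hn).2 hy1)
      (by unfold E at k00; linarith) (by unfold E at k01; linarith)
      (by unfold E at k10; linarith) (by unfold E at k11; linarith)
    unfold E
    linarith
  | sx m a c iha ihc =>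
    intro X0 X1 Y0 Y1 h bx b x y hbb hRg hx0 hx1 hy0 hy1 hx hy
    simp only [chk, Bool.and_eq_true] at h
    rcases le_total (n * x) (m : ℝ) with hm | hm
    · exact iha X0 m Y0 Y1 h.1 bx b x y hbb hRg hx0 hm hy0 hy1 hx hy
    · exact ihc m X1 Y0 Y1 h.2 bx b x y hbb hRg hm hx1 hy0 hy1 hx hy
  | sy m a c iha ihc =>
    intro X0 X1 Y0 Y1 h bx b x y hbb hRg hx0 hx1 hy0 hy1 hx hy
    simp only [chk, Bool.and_eq_true] at h
    rcases le_total (n * y) (m : ℝ) with hm | hm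
    · exact iha X0 X1 Y0 m h.1 bx b x y hbb hRg hx0 hx1 hy0 hm hx hy
    · exact ihc X0 X1 m Y1 h.2 bx b x y hbb hRg hx0 hx1 hm hy1 hx hy

end Pool.Agent.Helper25.RC.PT
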