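import Pool.Agent.Helper25.RC.PTE
import Pool.Agent.Helper49.RC.Defs

/-!
# Project RC (MP_b21509_co): the pointwise inequality PT, complex form
-/

set_option autoImplicit false

namespace Pool.Agent.Helper25.RC.PT

open Helper97.CB Helper49.LT Helper49.RC

theorem Sr_neg (bx b y x : ℝ) : Sr bx b (-y) (-x) = Sr bx b y x := by
  unfold Sr
  have e1 : (1 / 2 + bx / 2 + 3 / 2 * b + -x : ℝ) = 1 / 2 + bx / 2 + 3 / 2 * b - x := by ring
  have e2 : ((1 + b - bx) / 2 + -y : ℝ) = (1 + b - bx) / 2 - y := by ring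
  have e3 : (1 / 2 + bx / 2 + 3 / 2 * b - -x : ℝ) = 1 / 2 + bx / 2 + 3 / 2 * b + x := by ring
  have e4 : ((1 + b - bx) / 2 - -y : ℝ) = (1 + b - bx) / 2 + y := by ring
  have e5 : (1 / 2 + bx / 2 - 3 / 2 * b + -x : ℝ) = 1 / 2 + bx / 2 - 3 / 2 * b - x := by ring
  have e6 : ((-1 + b + bx) / 2 + -y : ℝ) = (-1 + b + bx) / 2 - y := by ring
  have e7 : (1 / 2 + bx / 2 - 3 / 2 * b - -x : ℝ) = 1 / 2 + bx / 2 - 3 / 2 * b + x := by ring
  have e8 : ((-1 + b + bx) / 2 - -y : ℝ) = (-1 + b + bx) / 2 + y := by ring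
  rw [e1, e2, e3, e4, e5, e6, e7, e8]
  ring

theorem nr_neg (X Y : ℝ) : nr X (-Y) = nr X Y := by
  unfold nr
  rw [neg_sq]

theorem Sr_conj (bx b y x : ℝ) : Sr bx (-b) (-y) x = Sr bx b y x := by
  unfold Sr
  have e1 : (1 / 2 + bx / 2 + 3 / 2 * -b + x : ℝ) = 1 / 2 + bx / 2 - 3 / 2 * b + x := by ring
  have e2 : ((1 + -b - bx) / 2 + -y : ℝ) = -((-1 + b + bx) / 2 + y) := by ring
  have e3 : (1 / 2 + bx / 2 + 3 / 2 * -b - x : ℝ) = 1 / 2 + bx / 2 - 3 / 2 * b - x := by ring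
  have e4 : ((1 + -b - bx) / 2 - -y : ℝ) = -((-1 + b + bx) / 2 - y) := by ring
  have e5 : (1 / 2 + bx / 2 - 3 / 2 * -b + x : ℝ) = 1 / 2 + bx / 2 + 3 / 2 * b + x := by ring
  have e6 : ((-1 + -b + bx) / 2 + -y : ℝ) = -((1 + b - bx) / 2 + y) := by ring
  have e7 : (1 / 2 + bx / 2 - 3 / 2 * -b - x : ℝ) = 1 / 2 + bx / 2 + 3 / 2 * b - x := by ring
  have e8 : ((-1 + -b + bx) / 2 - -y : ℝ) = -((1 + b - bx) / 2 - y) := by ring
  rw [e1, e2, e3, e4, e5, e6, e7, e8, nr_neg, nr_neg, nr_neg, nr_neg]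
  ring

/-- all quadrants -/
theorem quadrants (f l1 l2 : ℝ) (H : ∀ bx b x y : ℝ, bx ^ 2 + 3 * b ^ 2 ≤ 1 → Rg bx b y x → 0 ≤ x →
    x ≤ 3 / 2 → 0 ≤ y → y ≤ 9 / 8 → Ineq f l1 l2 bx b y x) (bx b x y : ℝ)
    (h0 : bx ^ 2 + 3 * b ^ 2 ≤ 1)
    (h1 : |x - bx * x - 3 * b * y| ≤ (1 - (bx ^ 2 + 3 * b ^ 2)) / 2)
    (h2 : |y + bx * y - b * x| ≤ (1 - (bx ^ 2 + 3 * b ^ 2)) / 2)
    (hx : |x| ≤ 3 / 2) (hy : |y| ≤ 9 / 8) : Ineq f l1 l2 bx b y x := by
  rw [abs_le] at h1 h2 hx hy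
  obtain ⟨h1a, h1b⟩ := h1
  obtain ⟨h2a, h2b⟩ := h2
  obtain ⟨hxa, hxb⟩ := hx
  obtain ⟨hya, hyb⟩ := hy
  rcases le_total 0 x with sx | sx <;> rcases le_total 0 y with sy | sy
  · exact H bx b x y h0 ⟨h1b, h2b⟩ sx hxb sy hyb
  · have := H bx (-b) x (-y) (by rw [neg_sq]; exact h0) ⟨by nlinarith, by nlinarith⟩ sx hxb (by linarith) (by linarith)
    unfold Ineq at *
    rw [Sr_conj] at this
    nlinarith
  · have := H bx (-b) (-x) y (by rw [neg_sq]; exact h0) ⟨by nlinarith, by nlinarith⟩ (by linarith) (by linarith) sy hyb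
    unfold Ineq at *
    rw [← Sr_neg, neg_neg, Sr_conj] at this
    nlinarith
  · have := H bx b (-x) (-y) h0 ⟨by nlinarith, by nlinarith⟩ (by linarith) (by linarith) (by linarith)
      (by linarith)
    unfold Ineq at *
    rw [Sr_neg] at this
    nlinarith

theorem om_re : om.re = 1 / 2 := by
  simp [om, ee, Complex.exp_re]

theorem om_im : om.im = Real.sqrt 3 / 2 := by
  simp [om, ee, Complex.exp_im]

theorem nrm_eq (w : ℂ) (X Y : ℝ) (h1 : w.re = X) (h2 : w.im = Real.sqrt 3 * Y) : ‖w‖ = nr X Y := by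
  unfold nr
  rw [Complex.norm_eq_sqrt_sq_add_sq, h1, h2, mul_pow, Real.sq_sqrt (by norm_num)]

/-- the inequality PT in complex form, for `‖β‖ ≤ 1` on the whole parallelogram -/
def PT (f l1 l2 : ℝ) : Prop := ∀ β z : ℂ, ‖β‖ ≤ 1 → Reg β z →
  f * (3 / 2 * z.re ^ 2 + 1 / 2 * z.im ^ 2) ≤ ‖f1 β z‖ + ‖f1 β (-z)‖ + ‖f2 β z‖ + ‖f2 β (-z)‖ - 4 +
    2 * β.re + l1 * β.re ^ 2 + l2 * β.im ^ 2

theorem main (f l1 l2 : ℝ) (H : ∀ bx b x y : ℝ, bx ^ 2 + 3 * b ^ 2 ≤ 1 → Rg bx b y x → 0 ≤ x →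
    x ≤ 3 / 2 → 0 ≤ y → y ≤ 9 / 8 → Ineq f l1 l2 bx b y x) : PT f l1 l2 := by
  intro β z hβ hR
  have h3 : (0 : ℝ) < Real.sqrt 3 := by positivity
  have hs3 : Real.sqrt 3 ^ 2 = 3 := Real.sq_sqrt (by norm_num)
  obtain ⟨bx, hbx⟩ : ∃ bx, β.re = bx := ⟨_, rfl⟩
  obtain ⟨b, hb⟩ : ∃ b, β.im = Real.sqrt 3 * b := ⟨β.im / Real.sqrt 3, by field_simp⟩
  obtain ⟨x, hx⟩ : ∃ x, z.re = x := ⟨_, rfl⟩
  obtain ⟨y, hy⟩ : ∃ y, z.im = Real.sqrt 3 * y := ⟨z.im / Real.sqrt 3, by field_simp⟩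
  have hnb : bx ^ 2 + 3 * b ^ 2 ≤ 1 := by
    have h : ‖β‖ ^ 2 ≤ 1 := by nlinarith [norm_nonneg β]
    rw [Complex.sq_norm, Complex.normSq_apply, hbx, hb] at h
    nlinarith
  obtain ⟨s, t, hst, hz⟩ := hR
  have e1 : ∀ p : ℂ, (f1 β p).re = 1 / 2 + bx / 2 + 3 / 2 * b + p.re := by
    intro p
    simp only [f1, Complex.add_re, Complex.mul_re, Complex.conj_re, Complex.conj_im, om_re, om_im,
      hbx, hb]
    linear_combination (b / 2) * hs3
  have e2 : ∀ p : ℂ, (f1 β p).im = Real.sqrt 3 * ((1 + b - bx) / 2) + p.im := by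
    intro p
    simp only [f1, Complex.add_im, Complex.mul_im, Complex.conj_re, Complex.conj_im, om_re, om_im,
      hbx, hb]
    ring
  have e3 : ∀ p : ℂ, (f2 β p).re = -(1 / 2 + bx / 2 - 3 / 2 * b + p.re) := by
    intro p
    simp only [f2, Complex.add_re, Complex.sub_re, Complex.mul_re, Complex.mul_im, Complex.conj_re,
      Complex.conj_im, om_re, om_im, hbx, hb, pow_two]
    linear_combination (-1 / 4 + b / 2 - bx / 4) * hs3
  have e4 : ∀ p : ℂ, (f2 β p).im = -(Real.sqrt 3 * ((-1 + b + bx) / 2) + p.im) := by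
    intro p
    simp only [f2, Complex.add_im, Complex.sub_im, Complex.mul_re, Complex.mul_im, Complex.conj_re,
      Complex.conj_im, om_re, om_im, hbx, hb, pow_two]
    linear_combination (-(Real.sqrt 3 * b) / 4) * hs3
  have n1 : ‖f1 β z‖ = nr (1 / 2 + bx / 2 + 3 / 2 * b + x) ((1 + b - bx) / 2 + y) :=
    nrm_eq _ _ _ (by rw [e1, hx]) (by rw [e2, hy]; ring)
  have n2 : ‖f1 β (-z)‖ = nr (1 / 2 + bx / 2 + 3 / 2 * b - x) ((1 + b - bx) / 2 - y) :=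
    nrm_eq _ _ _ (by rw [e1, Complex.neg_re, hx]; ring) (by rw [e2, Complex.neg_im, hy]; ring)
  have n3 : ‖f2 β z‖ = nr (1 / 2 + bx / 2 - 3 / 2 * b + x) ((-1 + b + bx) / 2 + y) := by
    rw [← norm_neg]
    exact nrm_eq _ _ _ (by rw [Complex.neg_re, e3, hx]; ring) (by rw [Complex.neg_im, e4, hy]; ring)
  have n4 : ‖f2 β (-z)‖ = nr (1 / 2 + bx / 2 - 3 / 2 * b - x) ((-1 + b + bx) / 2 - y) := by
    rw [← norm_neg]
    exact nrm_eq _ _ _ (by rw [Complex.neg_re, e3, Complex.neg_re, hx]; ring)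
      (by rw [Complex.neg_im, e4, Complex.neg_im, hy]; ring)
  have zx : x = s * (1 / 2 + bx / 2 + 3 / 2 * b) - t * (1 / 2 + bx / 2 - 3 / 2 * b) := by
    have := congrArg Complex.re hz
    rw [Complex.add_re, Complex.re_ofReal_mul, Complex.re_ofReal_mul, e1, e3, Complex.zero_re,
      hx] at this
    rw [this]
    ring
  have zy : y = s * ((1 + b - bx) / 2) - t * ((-1 + b + bx) / 2) := by
    have := congrArg Complex.im hz
    rw [Complex.add_im, Complex.im_ofReal_mul, Complex.im_ofReal_mul, e2, e4, Complex.zero_im,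
      hy] at this
    have h : Real.sqrt 3 * y = Real.sqrt 3 * (s * ((1 + b - bx) / 2) - t * ((-1 + b + bx) / 2)) := by
      rw [this]
      ring
    exact mul_left_cancel₀ h3.ne' h
  have hsum : Sr bx b y x = ‖f1 β z‖ + ‖f1 β (-z)‖ + ‖f2 β z‖ + ‖f2 β (-z)‖ := by
    rw [n1, n2, n3, n4]
    rfl
  rw [← hsum, hbx, hb, hx, hy, mul_pow, mul_pow, hs3]
  have hst1 : |s - t| ≤ 1 := (abs_sub s t).trans hst
  have hst2 : |s + t| ≤ 1 := (abs_add_le s t).trans hst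
  have hnn : 0 ≤ (1 - (bx ^ 2 + 3 * b ^ 2)) / 2 := by linarith
  have c1 : |x - bx * x - 3 * b * y| ≤ (1 - (bx ^ 2 + 3 * b ^ 2)) / 2 := by
    have e : x - bx * x - 3 * b * y = (s - t) * ((1 - (bx ^ 2 + 3 * b ^ 2)) / 2) := by
      rw [zx, zy]
      ring
    rw [e, abs_mul, abs_of_nonneg hnn]
    nlinarith
  have c2 : |y + bx * y - b * x| ≤ (1 - (bx ^ 2 + 3 * b ^ 2)) / 2 := by
    have e : y + bx * y - b * x = (s + t) * ((1 - (bx ^ 2 + 3 * b ^ 2)) / 2) := by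
      rw [zx, zy]
      ring
    rw [e, abs_mul, abs_of_nonneg hnn]
    nlinarith
  have mul_bd : ∀ u v c : ℝ, |u| ≤ c → |v| ≤ c → |s * u - t * v| ≤ c := by
    intro u v c hu hv
    calc |s * u - t * v| ≤ |s * u| + |t * v| := abs_sub _ _
      _ = |s| * |u| + |t| * |v| := by rw [abs_mul, abs_mul]
      _ ≤ |s| * c + |t| * c := by gcongr
      _ = (|s| + |t|) * c := by ring
      _ ≤ 1 * c := mul_le_mul_of_nonneg_right hst ((abs_nonneg u).trans hu)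
      _ = c := one_mul c
  have c3 : |x| ≤ 3 / 2 := by
    rw [zx]
    apply mul_bd
    · have : |bx / 2 + 3 / 2 * b| ≤ 1 := by
        apply abs_le_of_sq_le_sq _ (by norm_num)
        nlinarith [sq_nonneg (bx - b)]
      rw [abs_le] at *
      constructor <;> linarith
    · have : |bx / 2 - 3 / 2 * b| ≤ 1 := by
        apply abs_le_of_sq_le_sq _ (by norm_num)
        nlinarith [sq_nonneg (bx + b)]
      rw [abs_le] at *
      constructor <;> linarith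
  have c4 : |y| ≤ 9 / 8 := by
    rw [zy]
    apply mul_bd
    · have : |b - bx| ≤ 5 / 4 := by
        apply abs_le_of_sq_le_sq _ (by norm_num)
        nlinarith [sq_nonneg (bx + 3 * b)]
      rw [abs_le] at *
      constructor <;> linarith
    · have : |b + bx| ≤ 5 / 4 := by
        apply abs_le_of_sq_le_sq _ (by norm_num)
        nlinarith [sq_nonneg (bx - 3 * b)]
      rw [abs_le] at *
      constructor <;> linarith
  have fin := quadrants f l1 l2 H bx b x y hnb c1 c2 c3 c4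
  unfold Ineq at fin
  linarith

end Pool.Agent.Helper25.RC.PT
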